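import Pool.Agent.Helper23.KB.Shape3
import Pool.Agent.Helper23.KB.Zeros

/-!
# The shape of extremal pairs for Korenblum's function as `c` tends to one
-/

set_option autoImplicit false

namespace Pool.Agent.Results.MP_bff168_an.AsymptoticShape

open Metric MeasureTheory Filter Topology Real

/-- The unit sphere `S¹` of the Bergman space `A²` of the unit disc: `f` is analytic in the disc,
`|f|²` is integrable over the disc and `(1/π) ∫ |f|² = 1`. -/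
def UnitSphere (f : ℂ → ℂ) : Prop :=
  DifferentiableOn ℂ f (ball 0 1) ∧ IntegrableOn (fun z => ‖f z‖ ^ 2) (ball 0 1) ∧
    π⁻¹ * ∫ z in ball (0 : ℂ) 1, ‖f z‖ ^ 2 = 1

/-- `|f| ≤ t |g|` on `c ≤ |z| < 1`; equivalently the meromorphic quotient `f / g` has no pole in
`c ≤ |z| < 1` and is bounded by `t` there. -/
def QuotientAtMost (c t : ℝ) (f g : ℂ → ℂ) : Prop :=
  ∀ z : ℂ, c ≤ ‖z‖ → ‖z‖ < 1 → ‖f z‖ ≤ t * ‖g z‖

/-- Korenblum's function `F(c)`: the infimum over `f, g ∈ S¹` of the supremum of `|f / g|` over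
`c ≤ |z| < 1`. -/
noncomputable def korF (c : ℝ) : ℝ :=
  sInf {t : ℝ | 0 ≤ t ∧ ∃ f g : ℂ → ℂ, UnitSphere f ∧ UnitSphere g ∧ QuotientAtMost c t f g}

/-- `(f, g)` is an extremal pair for `F(c)`. -/
def ExtremalPair (c : ℝ) (f g : ℂ → ℂ) : Prop :=
  UnitSphere f ∧ UnitSphere g ∧ QuotientAtMost c (korF c) f g

/-- The shape of extremal pairs as `c` tends to one. (1) `F(c)² / (1 - c²)` tends to `e`.
For every `c` in `(0, 1)`, with `n` the natural number with `n + 1 ≤ 1/(1 - c²) < n + 2`: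
(2) the first function of an extremal pair is within `√(11 (1 - c²))` of the constant `f 0`;
(3) the modulus of the second function is within `√(340 (1 - c²))` of `√(n + 1) |z|ⁿ`;
(4) the moduli of the second functions of any two extremal pairs are within
`√(1360 (1 - c²))` of each other (all in the norm of `L²`, normalised);
(5) if `c² ≥ 19/20` and `g` has exactly `N` zeros in `|z| ≤ c`, with multiplicities, then
`|N (1 - c²) - 1| ≤ 12 √(1 - c²)`. -/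
theorem result :
    Tendsto (fun c => korF c ^ 2 / (1 - c ^ 2)) (𝓝[<] 1) (𝓝 (Real.exp 1)) ∧
    ∀ c : ℝ, 0 < c → c < 1 →
      (∀ f g : ℂ → ℂ, ExtremalPair c f g →
        π⁻¹ * ∫ z in ball (0 : ℂ) 1, ‖f z - f 0‖ ^ 2 ≤ 11 * (1 - c ^ 2)) ∧
      (∀ f g : ℂ → ℂ, ExtremalPair c f g → ∀ n : ℕ, ((n : ℝ) + 1) * (1 - c ^ 2) ≤ 1 →
        1 < ((n : ℝ) + 2) * (1 - c ^ 2) →
        π⁻¹ * ∫ z in ball (0 : ℂ) 1, (‖g z‖ - √((n : ℝ) + 1) * ‖z‖ ^ n) ^ 2 ≤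
          340 * (1 - c ^ 2)) ∧
      (∀ f₁ g₁ f₂ g₂ : ℂ → ℂ, ExtremalPair c f₁ g₁ → ExtremalPair c f₂ g₂ →
        π⁻¹ * ∫ z in ball (0 : ℂ) 1, (‖g₁ z‖ - ‖g₂ z‖) ^ 2 ≤ 1360 * (1 - c ^ 2)) ∧
      (19 / 20 ≤ c ^ 2 → ∀ f g : ℂ → ℂ, ExtremalPair c f g →
        ∀ (N : ℕ) (a : Fin N → ℂ) (u : ℂ → ℂ), DifferentiableOn ℂ u (ball 0 1) →
        (∀ z : ℂ, ‖z‖ ≤ c → u z ≠ 0) → (∀ i, ‖a i‖ ≤ c) →
        (∀ z ∈ ball (0 : ℂ) 1, g z = (∏ i, (z - a i)) * u z) →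
        |N * (1 - c ^ 2) - 1| ≤ 12 * √(1 - c ^ 2)) := by
  refine ⟨Pool.Agent.Helper23.KB.kf_lim, fun c h0 h1 => ⟨fun f g h => ?_, fun f g h n hlo hhi => ?_,
    fun f₁ g₁ f₂ g₂ h h' => ?_, fun hc f g h N a u hu hu0 ha hg => ?_⟩⟩
  · exact Pool.Agent.Helper23.KB.area_f h0 h1 h
  · exact Pool.Agent.Helper23.KB.area_g2 h0 h1 h hlo hhi
  · exact Pool.Agent.Helper23.KB.area_gg h0 h1 h h'
  · exact Pool.Agent.Helper23.KB.zeros_count h0 h1 hc h hu hu0 ha hg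

end Pool.Agent.Results.MP_bff168_an.AsymptoticShape
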