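import Pool.Agent.Helper82.KR.Finite
import Pool.Agent.Helper54.KR.Rat
import Pool.Agent.Helper54.KR.Bad
import Pool.Agent.Helper23.KU.Final

/-!
# Uniqueness of the second function of an extremal pair for Korenblum's function

For all values of `c`, apart from a set without accumulation point in `(κ, 1)`.
-/

set_option autoImplicit false

namespace Pool.Agent.Results.MP_bff168_an.GenericUniqueness

open Metric MeasureTheory Real
open Pool.Agent.Helper23.KU Pool.Agent.Helper23.KB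

/-- The unit sphere `S¹` of the Bergman space `A²` of the unit disc: `f` is analytic in the disc,
`|f|²` is integrable over the disc and `(1/π) ∫ |f|² = 1`. -/
def UnitSphere (f : ℂ → ℂ) : Prop :=
  DifferentiableOn ℂ f (ball 0 1) ∧ IntegrableOn (fun z => ‖f z‖ ^ 2) (ball 0 1) ∧
    π⁻¹ * ∫ z in ball (0 : ℂ) 1, ‖f z‖ ^ 2 = 1

/-- `|f| ≤ t |g|` on `c ≤ |z| < 1`; equivalently the meromorphic quotient `f / g` has no pole in
`c ≤ |z| < 1` and is bounded by `t` there. -/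
def QuotientAtMost (c t : ℝ) (f g : ℂ → ℂ) : Prop :=
  ∀ z : ℂ, c ≤ ‖z‖ → ‖z‖ < 1 → ‖f z‖ ≤ t * ‖g z‖

/-- Korenblum's function `F(c)`: the infimum over `f, g ∈ S¹` of the supremum of `|f / g|` over
`c ≤ |z| < 1`. -/
noncomputable def korF (c : ℝ) : ℝ :=
  sInf {t : ℝ | 0 ≤ t ∧ ∃ f g : ℂ → ℂ, UnitSphere f ∧ UnitSphere g ∧ QuotientAtMost c t f g}

/-- `(f, g)` is an extremal pair for `F(c)`. -/
def ExtremalPair (c : ℝ) (f g : ℂ → ℂ) : Prop :=
  UnitSphere f ∧ UnitSphere g ∧ QuotientAtMost c (korF c) f g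

/-- The statement of Q1 at the value `c`: two extremal pairs with the same first function have
the same second function up to a factor `exp (i α)`. -/
def UniqueAt (c : ℝ) : Prop :=
  ∀ f g₁ g₂ : ℂ → ℂ, ExtremalPair c f g₁ → ExtremalPair c f g₂ →
    ∃ α : ℝ, ∀ z ∈ ball (0 : ℂ) 1, g₂ z = Complex.exp (α * Complex.I) * g₁ z

theorem rot {κ : ℂ} (hκ : ‖κ‖ = 1) {g₁ g₂ : ℂ → ℂ}
    (hg : ∀ z ∈ ball (0 : ℂ) 1, g₂ z = κ * g₁ z) :
    ∀ z ∈ ball (0 : ℂ) 1, g₂ z = Complex.exp (κ.arg * Complex.I) * g₁ z := by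
  intro z hz
  rw [hg z hz]
  congr 1
  have h7 := Complex.norm_mul_exp_arg_mul_I κ
  rw [hκ, Complex.ofReal_one, one_mul] at h7
  exact h7.symm

/-- (1) In every interval `[a, b]` with `F(a) < 1` and `b < 1`, that is in every compact
subinterval of `(κ, 1)`, uniqueness fails for only finitely many values of `c`. (2) If `F(c) < 1`
and `(f, g₁)`, `(f, g₂)` are extremal pairs, then `g₂ = exp (i α) g₁` for some real `α`, or there
are a point `z₀` with `|z₀| < c` and integers `k, m ≥ 1` with `F(c)² = k / (k + m)`, such that `g₁`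
and `g₂` vanish at `z₀` to an order exactly `m` higher than `f`, and a point `w` with `|w| < c`
where the orders of `g₁` and `g₂` differ by more than the order of `f`. -/
theorem result :
    (∀ a b : ℝ, 0 < a → b < 1 → korF a < 1 → {c : ℝ | a ≤ c ∧ c ≤ b ∧ ¬ UniqueAt c}.Finite) ∧
    ∀ c : ℝ, 0 < c → c < 1 → korF c < 1 → ∀ f g₁ g₂ : ℂ → ℂ, ExtremalPair c f g₁ →
      ExtremalPair c f g₂ →
      (∃ α : ℝ, ∀ z ∈ ball (0 : ℂ) 1, g₂ z = Complex.exp (α * Complex.I) * g₁ z) ∨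
      (∃ (z₀ : ℂ) (k m : ℕ), ‖z₀‖ < c ∧ 1 ≤ k ∧ 1 ≤ m ∧ korF c ^ 2 = (k : ℝ) / (k + m) ∧
        analyticOrderAt f z₀ ≠ ⊤ ∧ analyticOrderAt g₁ z₀ = analyticOrderAt f z₀ + m ∧
        analyticOrderAt g₂ z₀ = analyticOrderAt f z₀ + m) ∧
      ∃ w : ℂ, ‖w‖ < c ∧ (analyticOrderAt f w + analyticOrderAt g₂ w < analyticOrderAt g₁ w ∨
        analyticOrderAt f w + analyticOrderAt g₁ w < analyticOrderAt g₂ w) := by
  refine ⟨?_, fun c h0 h1 hF f g₁ g₂ hE₁ hE₂ => ?_⟩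
  · intro a b ha hb hF
    refine (exc_finite ha hb hF).subset ?_
    rintro c ⟨hac, hcb, hno⟩
    refine ⟨hac, hcb, ?_⟩
    unfold UniqueAt at hno
    push Not at hno
    obtain ⟨f, g₁, g₂, hE₁, hE₂, h3⟩ := hno
    refine ⟨f, g₁, g₂, hE₁, hE₂, ?_⟩
    push Not
    exact h3
  · obtain ⟨p₁, q₁, hq₁, r₁⟩ := rat_all h0 h1 (f := f) (g := g₁) hE₁
    obtain ⟨p₂, q₂, hq₂, r₂⟩ := rat_all h0 h1 (f := f) (g := g₂) hE₂
    rcases final h0 h1 hF hE₁ hE₂ hq₁ hq₂ r₁ r₂ with ⟨κ, hκ, hg⟩ | ⟨z₀, k, m, h2, h3, h4, h5, h6⟩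
    · exact Or.inl ⟨κ.arg, rot hκ hg⟩
    · rcases bad_zero h0 h1 hF hE₁ hE₂ with ⟨κ, hκ, hg⟩ | hw
      · exact Or.inl ⟨κ.arg, rot hκ hg⟩
      · refine Or.inr ⟨⟨z₀, k, m, h2, h3, h4, ?_, h6⟩, hw⟩
        have h7 : (0 : ℝ) < k + m := by
          have : (1 : ℝ) ≤ k := by exact_mod_cast h3
          positivity
        rw [eq_div_iff h7.ne']
        exact h5

end Pool.Agent.Results.MP_bff168_an.GenericUniqueness
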