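import Pool.Agent.Helper54.KR.Rat
import Pool.Agent.Helper23.KR.Circ

/-!
# The quotient of an extremal pair for Korenblum's function is rational
-/

set_option autoImplicit false

namespace Pool.Agent.Results.MP_bff168_an.RationalQuotient

open Metric MeasureTheory Real
open Pool.Agent.Helper23.KU Pool.Agent.Helper23.KB

/-- The unit sphere `S¹` of the Bergman space `A²` of the unit disc: `f` is analytic in the disc,
`|f|²` is integrable over the disc and `(1/π) ∫ |f|² = 1`. -/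
def UnitSphere (f : ℂ → ℂ) : Prop :=
  DifferentiableOn ℂ f (ball 0 1) ∧ IntegrableOn (fun z => ‖f z‖ ^ 2) (ball 0 1) ∧
    π⁻¹ * ∫ z in ball (0 : ℂ) 1, ‖f z‖ ^ 2 = 1

/-- `|f| ≤ t |g|` on `c ≤ |z| < 1`; equivalently the meromorphic quotient `f / g` has no pole in
`c ≤ |z| < 1` and is bounded by `t` there. -/
def QuotientAtMost (c t : ℝ) (f g : ℂ → ℂ) : Prop :=
  ∀ z : ℂ, c ≤ ‖z‖ → ‖z‖ < 1 → ‖f z‖ ≤ t * ‖g z‖

/-- Korenblum's function `F(c)`: the infimum over `f, g ∈ S¹` of the supremum of `|f / g|` over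
`c ≤ |z| < 1`. -/
noncomputable def korF (c : ℝ) : ℝ :=
  sInf {t : ℝ | 0 ≤ t ∧ ∃ f g : ℂ → ℂ, UnitSphere f ∧ UnitSphere g ∧ QuotientAtMost c t f g}

/-- `(f, g)` is an extremal pair for `F(c)`. -/
def ExtremalPair (c : ℝ) (f g : ℂ → ℂ) : Prop :=
  UnitSphere f ∧ UnitSphere g ∧ QuotientAtMost c (korF c) f g

/-- For `0 < c < 1` the quotient `f / g` of every extremal pair for `F(c)` is a rational function
`p / q`, and its modulus is `F(c)` on the unit circle, so that `f / g` is `F(c)` times a quotient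
of two finite Blaschke products. -/
theorem result :
    ∀ c : ℝ, 0 < c → c < 1 → ∀ f g : ℂ → ℂ, ExtremalPair c f g →
      ∃ p q : Polynomial ℂ,
        (∀ z : ℂ, ‖z‖ = 1 → q.eval z ≠ 0 ∧ ‖p.eval z‖ = korF c * ‖q.eval z‖) ∧
        ∀ z ∈ ball (0 : ℂ) 1, q.eval z * f z = p.eval z * g z := by
  intro c h0 h1 f g h
  obtain ⟨p, q, hq, hpq⟩ := rat_all h0 h1 (f := f) (g := g) h
  obtain ⟨p', q', h2, h3⟩ := circ_of_rat h0 h1 (f := f) (g := g) h hq hpq
  exact ⟨p', q', h2, h3⟩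

end Pool.Agent.Results.MP_bff168_an.RationalQuotient
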